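import Pool.Agent.H17.CX.Targets
set_option autoImplicit false
open MvPolynomial SC Pool.Agent.H27.LV
open Pool.Agent.H92.SF Pool.Agent.H3.SF Pool.Agent.H17.SD Pool.Agent.H17.SFG Pool.Agent.H17.CX
namespace Pool.Agent.H13.CNX

/-- telescoping -/
theorem num_tel (f g : ℕ → ℕ) (n : ℕ) (h : ∀ j, j < n → f j ≤ f (j + 1) + g j) :
    ∀ j, j ≤ n → f 0 ≤ f j + ∑ i ∈ Finset.range j, g i := by
  intro j
  induction j with
  | zero => intro _; simp
  | succ j ih =>
    intro hj
    have h1 := ih (by omega)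
    have h2 := h j (by omega)
    rw [Finset.sum_range_succ]
    omega

/-- numerical part of the dimension count -/
theorem pf_NUM : T_NUM := by
  intro m dh C dc P S V hm hP hS hV0 hV
  set K : ℕ := ∑ i ∈ Finset.range dh, S ((i + 1) * m) with hK
  have hA : ∀ n : ℕ, 2 * (∑ i ∈ Finset.range (dh + n), S ((i + 1) * m)) + n * (n + 1)
      ≤ 2 * P ((dh + n) * m) + 2 * K := by
    intro n
    induction n with
    | zero => simp [hK]
    | succ n ih =>
      have hb : dh + n ≤ (dh + n) * m := Nat.le_mul_of_pos_right _ hm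
      have h1 := hP ((dh + n) * m) (by omega)
      have e : (dh + n) * m + m = (dh + (n + 1)) * m := by ring
      have e2 : dh + (n + 1) = (dh + n) + 1 := by ring
      rw [e2, Finset.sum_range_succ, ← e2]
      rw [e] at h1
      have h3 : (dh + n) * m + m ≥ dh + n + m := by omega
      have h4 : (n + 1) * (n + 1 + 1) = n * (n + 1) + 2 * (n + 1) := by ring
      rw [h4]
      omega
  have hB : ∀ n : ℕ, P (n * m) ≤ V n n + ∑ i ∈ Finset.range n, S ((i + 1) * m) + n * C := by
    intro n
    have h1 := num_tel (fun j => V n j) (fun j => S (n * m - j * m + dc)) n (hV n) n le_rfl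
    simp only [hV0] at h1
    have h2 : ∑ i ∈ Finset.range n, S (n * m - i * m + dc) =
        ∑ i ∈ Finset.range n, S ((i + 1) * m + dc) := by
      rw [← Finset.sum_range_reflect]
      refine Finset.sum_congr rfl fun j hj => ?_
      have hj' := Finset.mem_range.1 hj
      rw [← Nat.sub_mul]
      congr 3
      omega
    have h3 : ∑ i ∈ Finset.range n, S ((i + 1) * m + dc) ≤
        ∑ i ∈ Finset.range n, (S ((i + 1) * m) + C) :=
      Finset.sum_le_sum fun i _ => hS _
    rw [Finset.sum_add_distrib, Finset.sum_const, Finset.card_range, smul_eq_mul] at h3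
    omega
  refine ⟨dh + (2 * K + 2 * C * (dh + 1) + 4), by omega, ?_⟩
  have h1 := hA (2 * K + 2 * C * (dh + 1) + 4)
  have h2 := hB (dh + (2 * K + 2 * C * (dh + 1) + 4))
  have h3 : 2 * K + 2 * ((dh + (2 * K + 2 * C * (dh + 1) + 4)) * C) + 4 ≤
      (2 * K + 2 * C * (dh + 1) + 4) * ((2 * K + 2 * C * (dh + 1) + 4) + 1) := by
    generalize hn : 2 * K + 2 * C * (dh + 1) + 4 = n
    have h5 : n * (n + 1) = n * (2 * K + 2 * C * (dh + 1) + 4) + n := by rw [hn]; ring
    rw [h5]
    have h6 : 1 ≤ n := by omega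
    nlinarith [Nat.zero_le K, Nat.zero_le C, Nat.zero_le dh, Nat.mul_le_mul h6 (le_refl (2 * K)),
      Nat.mul_le_mul h6 (le_refl (2 * C * dh))]
  omega

end Pool.Agent.H13.CNX
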